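import Mathlib

namespace Pool.Agent.H.MP_23085c_co

open Finset Filter Topology

abbrev Ix (m n : ℕ) := Option (Fin m ⊕ Fin n)

structure Cfg (E : Type) [AddCommGroup E] [Module ℝ E] (m n : ℕ) where
  v : Ix m n → E
  lam : Fin m → ℝ
  ht : E →ₗ[ℝ] ℝ
  pos : ∀ k, 0 < lam k
  one : ∑ k, lam k = 1
  bar : ∑ k, lam k • v (some (Sum.inl k)) = -v none
  Ha : ∀ k, ht (v (some (Sum.inl k))) = 1
  Hc : ∀ i, ht (v (some (Sum.inr i))) = 0
  gp : ∀ S : Finset (Ix m n), #S ≤ m + 2 → ¬ (none ∈ S ∧ ∀ k, some (Sum.inl k) ∈ S) → ∀ j ∈ S,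
    ∃ (F : E →ₗ[ℝ] ℝ) (γ : ℝ), F (v none) = 0 ∧ ∀ i ∈ S, F (v i) = γ + if i = j then 1 else 0
  xi : ∀ i, ∃ ξ : E →ₗ[ℝ] ℝ, (∀ k, ξ (v (some (Sum.inl k))) = 0) ∧ ξ (v (some (Sum.inr i))) = 1 ∧
    ∀ j, j ≠ i → |ξ (v (some (Sum.inr j)))| < 1
  sp : ∀ u : E →ₗ[ℝ] ℝ, (∀ i, u (v i) = 0) → u = 0

lemma hull_bd {E : Type} [AddCommGroup E] [Module ℝ E] {n : ℕ} (x : Fin n → E) (u : E →ₗ[ℝ] ℝ)
    (M : ℝ) (h : ∀ i, |u (x i)| ≤ M) :
    ∀ k ∈ convexHull ℝ (Set.range x ∪ Set.range fun i => -x i), |u k| ≤ M := by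
  intro k hk
  have : convexHull ℝ (Set.range x ∪ Set.range fun i => -x i) ⊆ u ⁻¹' Set.Icc (-M) M := by
    refine convexHull_min ?_ ((convex_Icc _ _).linear_preimage u)
    rintro _ (⟨i, rfl⟩ | ⟨i, rfl⟩)
    · exact abs_le.1 (h i)
    · exact abs_le.1 (by simpa using h i)
  exact abs_le.2 (this hk)

theorem Cfg.main {E : Type} [AddCommGroup E] [Module ℝ E] {m n : ℕ} (C : Cfg E m n) (hn : 0 < n) :
    ∃ x : Fin n → E,
      (∀ S : Finset (Ix m n), #S = m + 2 → ∀ y : Ix m n → E,
        (∀ i ∈ S, y i - C.v i ∈ convexHull ℝ (Set.range x ∪ Set.range fun i => -x i)) →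
        ∀ w : Ix m n → ℝ, ∑ i ∈ S, w i = 0 → ∑ i ∈ S, w i • y i = 0 → ∀ i ∈ S, w i = 0) ∧
      (∀ i, ∃ u : E →ₗ[ℝ] ℝ, u ≠ 0 ∧ ∀ j, j ≠ some (Sum.inr i) →
        ∃ k ∈ convexHull ℝ (Set.range x ∪ Set.range fun i => -x i), u (k + C.v j) = 0) ∧
      ∀ (u : E →ₗ[ℝ] ℝ) (c : ℝ), (∀ j, ∃ k ∈ convexHull ℝ (Set.range x ∪ Set.range fun i => -x i),
        u (k + C.v j) = c) → u = 0 := by
  classical
  have hbar : ∀ u : E →ₗ[ℝ] ℝ, ∑ k, C.lam k * u (C.v (some (Sum.inl k))) = -u (C.v none) := by
    intro u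
    have := congrArg u C.bar
    simpa [map_sum] using this
  have Hb : C.ht (C.v none) = -1 := by
    have := hbar C.ht
    simp only [C.Ha, mul_one, C.one] at this
    linarith
  choose ξ ξa ξ1 ξ2 using C.xi
  have ξb : ∀ i, ξ i (C.v none) = 0 := fun i => by
    have := hbar (ξ i); simp only [ξa, mul_zero, sum_const_zero] at this; linarith
  have gp := C.gp
  choose! F γ F0 F1 using gp
  obtain ⟨κ, hκ, hκ1⟩ : ∃ κ : ℝ, (∀ i j, j ≠ i → κ * |ξ i (C.v (some (Sum.inr j)))| < 1) ∧ 1 < κ := by
    refine (Eventually.and (f := 𝓝[>] (1 : ℝ)) ?_ self_mem_nhdsWithin).exists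
    refine eventually_all.2 fun i => eventually_all.2 fun j => ?_
    by_cases h : j ≠ i
    · have : ∀ᶠ κ in 𝓝 (1 : ℝ), κ * |ξ i (C.v (some (Sum.inr j)))| < 1 :=
        (continuous_id.mul continuous_const).continuousAt.eventually_lt continuousAt_const
          (by simpa using ξ2 i j h)
      exact (this.filter_mono nhdsWithin_le_nhds).mono fun κ h _ => h
    · exact Eventually.of_forall fun κ h' => absurd h' h
  obtain ⟨δ, ⟨hδ1, hδ2⟩, hδ⟩ : ∃ δ : ℝ, (δ * (m + 2) < 1 / 2 ∧ ∀ k, 4 * δ < C.lam k) ∧ 0 < δ := by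
    refine (Eventually.and (f := 𝓝[>] (0 : ℝ)) ?_ self_mem_nhdsWithin).exists
    refine Eventually.filter_mono nhdsWithin_le_nhds (Eventually.and ?_ (eventually_all.2 fun k => ?_))
    · exact (continuous_id.mul continuous_const).continuousAt.eventually_lt continuousAt_const
        (by simp)
    · exact (continuous_const.mul continuous_id).continuousAt.eventually_lt continuousAt_const
        (by simpa using C.pos k)
  obtain ⟨s, ⟨hs1, hs2⟩, hs⟩ : ∃ s : ℝ, (s < 1 / 2 ∧ ∀ S j i,
      s * |F S j (C.v (some (Sum.inr i)))| < δ) ∧ 0 < s := by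
    refine (Eventually.and (f := 𝓝[>] (0 : ℝ)) ?_ self_mem_nhdsWithin).exists
    refine Eventually.filter_mono nhdsWithin_le_nhds (Eventually.and ?_
      (eventually_all.2 fun S => eventually_all.2 fun j => eventually_all.2 fun i => ?_))
    · exact eventually_lt_nhds (by norm_num)
    · exact (continuous_id.mul continuous_const).continuousAt.eventually_lt continuousAt_const
        (by simpa using hδ)
  have hq : 0 < s * (κ - 1) := mul_pos hs (by linarith)
  set η : ℝ := 1 / (1 + s * (κ - 1)) with hη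
  have η0 : 0 < η := by positivity
  have η1 : η < 1 := by rw [hη, div_lt_one (by linarith)]; linarith
  have η2 : η * (1 + s * (κ - 1)) = 1 := by rw [hη]; field_simp
  let x : Fin n → E := fun i => η • ((1 - s) • (-C.v none) + s • C.v (some (Sum.inr i)))
  have ux : ∀ (u : E →ₗ[ℝ] ℝ) i, u (x i) =
      η * (-(1 - s) * u (C.v none) + s * u (C.v (some (Sum.inr i)))) := fun u i => by
    simp only [x, map_smul, map_add, map_neg, smul_eq_mul]; ring
  refine ⟨x, ?_, ?_, ?_⟩
  · intro S hS y hy w hw0 hw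
    have key : ∀ (u : E →ₗ[ℝ] ℝ) (M : ℝ), (∀ i, |u (x i)| ≤ M) →
        |∑ i ∈ S, w i * u (C.v i)| ≤ M * ∑ i ∈ S, |w i| := by
      intro u M hM
      have h1 := congrArg u hw
      simp only [map_sum, map_smul, smul_eq_mul, map_zero] at h1
      have h2 : ∑ i ∈ S, w i * u (C.v i) = ∑ i ∈ S, -(w i * u (y i - C.v i)) := by
        simp only [map_sub, mul_sub, neg_sub, sum_sub_distrib, h1, sub_zero]
      rw [h2, mul_sum]
      refine (abs_sum_le_sum_abs _ _).trans (sum_le_sum fun i hi => ?_)
      rw [abs_neg, abs_mul, mul_comm]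
      exact mul_le_mul_of_nonneg_right (hull_bd x u M hM _ (hy i hi)) (abs_nonneg _)
    have keyF : ∀ S' j, F S' j (C.v none) = 0 →
        |∑ i ∈ S, w i * F S' j (C.v i)| ≤ δ * ∑ i ∈ S, |w i| := by
      intro S' j h0
      refine key _ _ fun i => ?_
      rw [ux, h0, mul_zero, zero_add, abs_mul, abs_mul, abs_of_pos η0, abs_of_pos hs]
      have := hs2 S' j i
      have : 0 ≤ s * |F S' j (C.v (some (Sum.inr i)))| := by positivity
      nlinarith
    set W := ∑ i ∈ S, |w i| with hW
    have W0 : 0 ≤ W := sum_nonneg fun _ _ => abs_nonneg _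
    suffices W = 0 by
      intro i hi
      exact abs_eq_zero.1 ((sum_eq_zero_iff_of_nonneg fun _ _ => abs_nonneg _).1 this i hi)
    by_cases hsp : none ∈ S ∧ ∀ k, some (Sum.inl k) ∈ S
    · let T : Finset (Ix m n) := insert none (univ.map ⟨fun k => some (Sum.inl k),
        fun a b h => by simpa using h⟩)
      have hT : #T = m + 1 := by rw [card_insert_of_notMem (by simp)]; simp
      obtain ⟨c, hc, hcS⟩ := (exists_eq_insert_iff (s := T) (t := S)).2 ⟨by
        intro i hi
        simp only [T, mem_insert, Finset.mem_map, mem_univ, true_and] at hi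
        rcases hi with rfl | ⟨k, rfl⟩
        exacts [hsp.1, hsp.2 k], by omega⟩
      obtain ⟨i, rfl⟩ : ∃ i, c = some (Sum.inr i) := by
        rcases c with _ | k | i
        · simp [T] at hc
        · simp [T] at hc
        · exact ⟨i, rfl⟩
      have sm : ∀ f : Ix m n → ℝ, ∑ j ∈ S, f j =
          f (some (Sum.inr i)) + (f none + ∑ k, f (some (Sum.inl k))) := fun f => by
        rw [← hcS, sum_insert hc, sum_insert (by simp), sum_map]; rfl
      have hS' : #(S.erase none) ≤ m + 2 := (card_erase_le).trans hS.le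
      have hn' : ¬ (none ∈ S.erase none ∧ ∀ k, some (Sum.inl k) ∈ S.erase none) := by simp
      have ma : ∀ k, some (Sum.inl k) ∈ S.erase none := fun k => by simp [hsp.2 k]
      have mc : some (Sum.inr i) ∈ S.erase none := by simp [← hcS]
      rw [sm] at hw0
      have e1 : |w (some (Sum.inr i))| ≤ δ * W := by
        have h1 := keyF _ _ (F0 _ hS' hn' _ mc)
        have h2 := hbar (F (S.erase none) (some (Sum.inr i)))
        rw [sm] at h1
        simp only [F1 _ hS' hn' _ mc _ (ma _), F1 _ hS' hn' _ mc _ mc, F0 _ hS' hn' _ mc,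
          Option.some.injEq, reduceCtorEq, if_false, if_true, add_zero, ← sum_mul, C.one] at h1 h2
        have h3 : γ (S.erase none) (some (Sum.inr i)) = 0 := by linarith
        simpa [h3] using h1
      have e2 : ∀ k, |w (some (Sum.inl k)) + C.lam k * w none| ≤ δ * W := by
        intro k
        have h1 := keyF _ _ (F0 _ hS' hn' _ (ma k))
        have h2 := hbar (F (S.erase none) (some (Sum.inl k)))
        rw [sm] at h1
        simp only [F1 _ hS' hn' _ (ma k) _ (ma _), F1 _ hS' hn' _ (ma k) _ mc,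
          F0 _ hS' hn' _ (ma k), Option.some.injEq, reduceCtorEq, if_false, add_zero, mul_add,
          sum_add_distrib, ← sum_mul, C.one, Sum.inl.injEq, mul_ite, mul_one, mul_zero,
          sum_ite_eq', mem_univ, if_true] at h1 h2
        have h3 : γ (S.erase none) (some (Sum.inl k)) = -C.lam k := by linarith
        rw [h3] at h1
        convert h1 using 2
        linear_combination C.lam k * hw0
      have e3 : W ≤ δ * W + (|w none| + (|w none| + m * (δ * W))) := by
        conv_lhs => rw [hW, sm]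
        gcongr
        calc ∑ k, |w (some (Sum.inl k))| ≤ ∑ k, (C.lam k * |w none| + δ * W) :=
              sum_le_sum fun k _ => by
                have h1 := abs_le.1 (e2 k)
                have h2 : |C.lam k * w none| = C.lam k * |w none| := by
                  rw [abs_mul, abs_of_pos (C.pos k)]
                have h3 := neg_abs_le (C.lam k * w none)
                have h4 := le_abs_self (C.lam k * w none)
                rw [abs_le]; constructor <;> linarith
          _ = _ := by simp [sum_add_distrib, ← sum_mul, C.one]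
      have e4 : W ≤ 4 * |w none| := by nlinarith
      have e5 : ∀ k, δ * W ≤ C.lam k * |w none| := fun k => by
        have := hδ2 k
        have := abs_nonneg (w none)
        nlinarith
      obtain ⟨σ, hσ, hσ2, hσ3⟩ : ∃ σ : ℝ, |σ| = 1 ∧ σ * w none = -|w none| ∧
          ∀ k, σ * w (some (Sum.inl k)) = |w (some (Sum.inl k))| := by
        rcases le_total 0 (w none) with h | h
        · refine ⟨-1, by simp, by simp [abs_of_nonneg h], fun k => ?_⟩
          have h1 := abs_le.1 (e2 k)
          have h2 := e5 k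
          rw [abs_of_nonneg h] at h2
          rw [abs_of_nonpos (by linarith)]; ring
        · refine ⟨1, by simp, by simp [abs_of_nonpos h], fun k => ?_⟩
          have h1 := abs_le.1 (e2 k)
          have h2 := e5 k
          rw [abs_of_nonpos h] at h2
          rw [abs_of_nonneg (by linarith)]; ring
      obtain ⟨τ, hτ, hτ2⟩ : ∃ τ : ℝ, |τ| = 1 ∧
          τ * w (some (Sum.inr i)) = |w (some (Sum.inr i))| := by
        rcases le_total 0 (w (some (Sum.inr i))) with h | h
        · exact ⟨1, by simp, by simp [abs_of_nonneg h]⟩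
        · exact ⟨-1, by simp, by simp [abs_of_nonpos h]⟩
      have h1 := key (σ • C.ht + τ • ξ i) η fun j => by
        rw [ux]
        simp only [LinearMap.add_apply, LinearMap.smul_apply, Hb, ξb, C.Hc, smul_eq_mul]
        have h2 : |ξ i (C.v (some (Sum.inr j)))| ≤ 1 := by
          by_cases h : j = i
          · rw [h, ξ1]; simp
          · exact (ξ2 i j h).le
        rw [abs_mul, abs_of_pos η0]
        refine mul_le_of_le_one_right η0.le ((abs_add_le _ _).trans ?_)
        simp only [mul_zero, add_zero, zero_add, abs_mul, abs_neg, hσ, hτ, abs_one, abs_of_pos hs,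
          abs_of_pos (show 0 < 1 - s by linarith)]
        nlinarith
      have h2 : ∑ j ∈ S, w j * (σ • C.ht + τ • ξ i) (C.v j) = W := by
        rw [hW, sm, sm]
        simp only [LinearMap.add_apply, LinearMap.smul_apply, Hb, ξb, C.Hc, C.Ha, ξa, ξ1,
          smul_eq_mul, ← hσ3, ← hτ2]
        simp only [mul_zero, add_zero, zero_add, mul_one, ← sum_mul, ← mul_sum]
        linarith
      rw [h2, abs_of_nonneg W0] at h1
      nlinarith
    · have e1 : ∀ j ∈ S, |w j| ≤ δ * W := by
        intro j hj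
        have h1 := keyF _ _ (F0 _ hS.le hsp _ hj)
        rw [sum_congr rfl fun i hi => by rw [F1 _ hS.le hsp _ hj _ hi]] at h1
        simpa [mul_add, sum_add_distrib, ← sum_mul, hw0, hj] using h1
      have := sum_le_card_nsmul S _ _ e1
      rw [hS, ← hW, nsmul_eq_mul] at this
      push_cast at this
      nlinarith
  · intro i
    have hx : (C.ht + κ • ξ i) (x i) = 1 := by
      rw [ux]
      simp only [LinearMap.add_apply, LinearMap.smul_apply, Hb, ξb, C.Hc, ξ1, smul_eq_mul]
      linear_combination η2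
    refine ⟨C.ht + κ • ξ i, fun h => by simp [h] at hx, fun j hj => ?_⟩
    have hb : |(C.ht + κ • ξ i) (C.v j)| ≤ 1 := by
      rcases j with _ | k | j
      · simp [Hb, ξb]
      · simp [C.Ha, ξa]
      · have := hκ i j (by simpa using hj)
        simp only [LinearMap.add_apply, LinearMap.smul_apply, C.Hc, smul_eq_mul, zero_add, abs_mul,
          abs_of_pos (show 0 < κ by linarith)]
        exact this.le
    set t := (C.ht + κ • ξ i) (C.v j) with ht
    have hb' := abs_le.1 hb
    refine ⟨((1 - t) / 2) • x i + ((1 + t) / 2) • (-x i), convex_convexHull ℝ (Set.range x ∪ Set.range fun i => -x i)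
      (subset_convexHull ℝ _ (Or.inl ⟨i, rfl⟩)) (subset_convexHull ℝ _ (Or.inr ⟨i, rfl⟩))
      (by linarith) (by linarith) (by ring), ?_⟩
    generalize x i = z at hx
    rw [map_add, map_add, map_smul, map_smul, map_neg, hx, ← ht]
    simp only [smul_eq_mul]; ring
  · intro u c h
    obtain ⟨i0, -, hi0⟩ := exists_max_image univ (fun i => |u (x i)|) ⟨⟨0, hn⟩, mem_univ _⟩
    set B := |u (x i0)| with hB
    have hv : ∀ j, |u (C.v j) - c| ≤ B := fun j => by
      obtain ⟨k, hk, hk2⟩ := h j
      have := hull_bd x u B (fun i => hi0 i (mem_univ _)) k hk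
      rw [map_add] at hk2
      rwa [show u (C.v j) - c = -u k by linarith, abs_neg]
    have h1 : |-u (C.v none) - c| ≤ B := by
      have : -u (C.v none) - c = ∑ k, C.lam k * (u (C.v (some (Sum.inl k))) - c) := by
        simp only [mul_sub, sum_sub_distrib, hbar, ← sum_mul, C.one, one_mul]
      rw [this]
      refine (abs_sum_le_sum_abs _ _).trans ?_
      calc _ ≤ ∑ k, C.lam k * B := sum_le_sum fun k _ => by
            rw [abs_mul, abs_of_pos (C.pos k)]
            exact mul_le_mul_of_nonneg_left (hv _) (C.pos k).le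
        _ = B := by rw [← sum_mul, C.one, one_mul]
    have h2 := abs_le.1 (hv none)
    have h3 := abs_le.1 (hv (some (Sum.inr i0)))
    have h4 := abs_le.1 h1
    have h5 : B ≤ η * B := by
      conv_lhs => rw [hB, ux, abs_mul, abs_of_pos η0]
      refine mul_le_mul_of_nonneg_left (abs_le.2 ⟨?_, ?_⟩) η0.le <;> nlinarith
    have B0 : B = 0 := by
      have : 0 ≤ B := abs_nonneg _
      nlinarith
    rw [B0] at h2 h4 hv
    have hc : c = 0 := by linarith
    exact C.sp u fun j => by simpa [hc] using hv j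

end Pool.Agent.H.MP_23085c_co
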