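import Pool.Agent.H.MP_23085c_co.A

namespace Pool.Agent.H.MP_23085c_co

open Finset Polynomial

variable {m n : ℕ}

def tau (m n : ℕ) : Fin m ⊕ Fin n → ℝ := Sum.elim (fun k => -(k : ℝ)) (fun i => (n : ℝ) + i)

lemma tau_inj : Function.Injective (tau m n) := by
  rintro (a | a) (b | b) h <;> simp only [tau, Sum.elim_inl, Sum.elim_inr] at h
  · congr 1; exact Fin.ext (by exact_mod_cast neg_injective h)
  · have : (0 : ℝ) < n := by exact_mod_cast b.pos
    have : (0 : ℝ) ≤ a := by positivity
    have : (0 : ℝ) ≤ b := by positivity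
    linarith
  · have : (0 : ℝ) < n := by exact_mod_cast a.pos
    have : (0 : ℝ) ≤ a := by positivity
    have : (0 : ℝ) ≤ b := by positivity
    linarith
  · congr 1; exact Fin.ext (by exact_mod_cast add_left_cancel h)

noncomputable def PP (m : ℕ) : ℝ[X] := ∏ k : Fin m, (X + C (k : ℝ))

noncomputable def NN (m : ℕ) : ℝ[X] := ∑ k : Fin m, ∏ j ∈ univ.erase k, (X + C (j : ℝ))

lemma deg_prod {ι : Type} (s : Finset ι) (c : ι → ℝ) : (∏ j ∈ s, (X + C (c j))).natDegree ≤ #s :=
  (natDegree_prod_le _ _).trans (by simp)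

lemma NN_deg : (NN m).natDegree < m + 2 := by
  refine lt_of_le_of_lt (natDegree_sum_le_of_forall_le _ _ (n := m) fun k _ =>
    (deg_prod _ _).trans ?_) (by omega)
  exact card_erase_le.trans (by simp)

lemma NN_pos (t : ℝ) (ht : 0 < t) : (NN m).eval t = (PP m).eval t * ∑ k : Fin m, 1 / (t + k) := by
  simp only [NN, PP, eval_finsetSum, eval_prod, eval_add, eval_X, eval_C, mul_sum]
  refine sum_congr rfl fun k _ => ?_
  rw [← mul_prod_erase univ _ (mem_univ k)]
  have : t + k ≠ 0 := by positivity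
  field_simp

lemma PP_pos (t : ℝ) (ht : 0 < t) : 0 < (PP m).eval t := by
  simp only [PP, eval_prod, eval_add, eval_X, eval_C]
  exact prod_pos fun k _ => by positivity

lemma tau_pos (i : Fin n) : 0 < tau m n (Sum.inr i) := by
  have : (0 : ℝ) < n := by exact_mod_cast i.pos
  simp only [tau, Sum.elim_inr]; positivity

lemma phi_pos (hm : 0 < m) (t : ℝ) (ht : 0 < t) : 0 < ∑ k : Fin m, 1 / (t + k) :=
  sum_pos (fun k _ => by positivity) ⟨⟨0, hm⟩, mem_univ _⟩

lemma NN_ne (hm : 0 < m) (j : Fin m ⊕ Fin n) : (NN m).eval (tau m n j) ≠ 0 := by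
  rcases j with k | i
  · simp only [NN, tau, Sum.elim_inl, eval_finsetSum, eval_prod, eval_add, eval_X, eval_C]
    rw [sum_eq_single k]
    · refine prod_ne_zero_iff.2 fun j hj h => (mem_erase.1 hj).1 (Fin.ext ?_)
      have : (j : ℝ) = k := by linarith
      exact_mod_cast this
    · intro j _ hj
      exact prod_eq_zero (mem_erase.2 ⟨hj.symm, mem_univ k⟩) (by simp)
    · simp
  · rw [NN_pos _ (tau_pos i)]
    exact (mul_pos (PP_pos _ (tau_pos i)) (phi_pos hm _ (tau_pos i))).ne'

noncomputable def LL (d : ℕ) (f : ℝ[X]) : (Fin d → ℝ) →ₗ[ℝ] ℝ :=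
  ∑ j : Fin d, f.coeff j • LinearMap.proj j

lemma LL_eval {d : ℕ} (f : ℝ[X]) (hf : f.natDegree < d) (t : ℝ) :
    LL d f (fun j => t ^ (j : ℕ)) = f.eval t := by
  rw [eval_eq_sum_range' hf, ← Fin.sum_univ_eq_sum_range (fun j => f.coeff j * t ^ j)]
  simp [LL]

noncomputable def aa (m n : ℕ) (f : ℝ[X]) (j : Fin m ⊕ Fin n) : ℝ :=
  f.eval (tau m n j) / (NN m).eval (tau m n j)

noncomputable def ZZ (S : Finset (Fin m ⊕ Fin n)) : ℝ[X] := ∏ s ∈ S, (X + C (-tau m n s))

lemma aa_ZZ (hm : 0 < m) (S : Finset (Fin m ⊕ Fin n)) (j : Fin m ⊕ Fin n) :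
    aa m n (ZZ S) j = 0 ↔ j ∈ S := by
  simp [aa, ZZ, NN_ne hm, eval_prod, prod_eq_zero_iff, add_neg_eq_zero, tau_inj.eq_iff]

lemma exists_lam (hm : 0 < m) : ∃ lam : Fin m → ℝ, (∀ k, 0 < lam k) ∧ ∑ k, lam k = 1 ∧
    ∀ S : Finset (Fin m ⊕ Fin n), (∃ k, Sum.inl k ∉ S) →
      ∑ k, lam k * aa m n (ZZ S) (Sum.inl k) ≠ 0 := by
  classical
  let Q : Finset (Fin m ⊕ Fin n) → ℝ[X] := fun S =>
    ∑ k : Fin m, C (aa m n (ZZ S) (Sum.inl k)) * X ^ (k : ℕ)
  have hQ : ∀ S : Finset (Fin m ⊕ Fin n), (∃ k, Sum.inl k ∉ S) → Q S ≠ 0 := by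
    rintro S ⟨k, hk⟩ h
    have := congrArg (fun p => p.coeff k) h
    simp only [Q, finsetSum_coeff, coeff_C_mul_X_pow, coeff_zero, Fin.val_inj, sum_ite_eq,
      mem_univ, if_true] at this
    exact hk ((aa_ZZ hm _ _).1 this)
  have hR : ∏ S ∈ univ.filter (fun S => ∃ k, Sum.inl k ∉ S), Q S ≠ 0 :=
    prod_ne_zero_iff.2 fun S hS => hQ S (mem_filter.1 hS).2
  obtain ⟨θ, hθ, hθ2⟩ := (Set.Ioi_infinite (0 : ℝ)).exists_notMem_finite (finite_setOfPred_isRoot hR)
  have hθ' : 0 < θ := hθ
  have hs : 0 < ∑ k : Fin m, θ ^ (k : ℕ) := sum_pos (fun k _ => by positivity) ⟨⟨0, hm⟩, mem_univ _⟩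
  refine ⟨fun k => θ ^ (k : ℕ) / ∑ k : Fin m, θ ^ (k : ℕ), fun k => by positivity, by
    rw [← sum_div, div_self hs.ne'], fun S hS h => hθ2 ?_⟩
  simp only [Set.mem_ofPred_eq, IsRoot, eval_prod]
  refine prod_eq_zero (mem_filter.2 ⟨mem_univ S, hS⟩) ?_
  simp only [div_mul_eq_mul_div, ← sum_div, div_eq_zero_iff, hs.ne', or_false] at h
  simp only [Q, eval_finsetSum, eval_mul, eval_C, eval_pow, eval_X]
  simpa only [mul_comm] using h

theorem exists_cfg (hm : 0 < m) (hn : 2 ≤ n) : Nonempty (Cfg (Fin (m + 2) → ℝ) m n) := by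
  classical
  obtain ⟨lam, l0, l1, l2⟩ := exists_lam (n := n) hm
  let hat : Fin m ⊕ Fin n → Fin (m + 2) → ℝ := fun j =>
    ((NN m).eval (tau m n j))⁻¹ • fun e : Fin (m + 2) => tau m n j ^ (e : ℕ)
  have Lh : ∀ f : ℝ[X], f.natDegree < m + 2 → ∀ j, LL (m + 2) f (hat j) = aa m n f j := by
    intro f hf j
    simp only [hat, map_smul, LL_eval f hf, aa, smul_eq_mul]; ring
  let ν : Fin (m + 2) → ℝ := ∑ k, lam k • hat (Sum.inl k)
  let β : ℝ[X] → ℝ := fun f => ∑ k, lam k * aa m n f (Sum.inl k)
  have Lν : ∀ f : ℝ[X], f.natDegree < m + 2 → LL (m + 2) f ν = β f := by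
    intro f hf
    simp only [ν, β, map_sum, map_smul, Lh f hf, smul_eq_mul]
  have aN : ∀ j, aa m n (NN m) j = 1 := fun j => div_self (NN_ne hm j)
  have βN : β (NN m) = 1 := by simp [β, aN, l1]
  let v : Ix m n → Fin (m + 2) → ℝ := fun i =>
    i.elim (-ν) (Sum.elim (fun k => hat (Sum.inl k)) fun i => hat (Sum.inr i) - ν)
  let ev : ℝ[X] → Ix m n → ℝ := fun f i => i.elim (β f) (aa m n f)
  have Fv : ∀ f : ℝ[X], f.natDegree < m + 2 → ∀ i,
      (LL (m + 2) f - β f • LL (m + 2) (NN m)) (v i) = -β f + ev f i := by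
    intro f hf i
    rcases i with _ | k | i <;>
      simp [v, ev, Lh f hf, Lh _ NN_deg, Lν f hf, Lν _ NN_deg, aN, βN] <;> ring
  have evs : ∀ (c : ℝ) f i, ev (C c * f) i = c * ev f i := by
    intro c f i
    have : ∀ j, aa m n (C c * f) j = c * aa m n f j := fun j => by simp [aa, mul_div_assoc]
    rcases i with _ | j
    · simp only [ev, β, Option.elim, this, mul_sum]
      exact sum_congr rfl fun k _ => by ring
    · exact this j
  have evd : ∀ f g i, ev (f - g) i = ev f i - ev g i := by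
    intro f g i
    have : ∀ j, aa m n (f - g) j = aa m n f j - aa m n g j := fun j => by simp [aa, sub_div]
    rcases i with _ | j
    · simp only [ev, β, Option.elim, this, mul_sub, sum_sub_distrib]
    · exact this j
  have degZ : ∀ S : Finset (Fin m ⊕ Fin n), (ZZ S).natDegree ≤ #S := fun S => deg_prod _ _
  refine ⟨⟨v, lam, LL (m + 2) (NN m), l0, l1, by simp [v, ν], fun k => by
    simp [v, Lh _ NN_deg, aN], fun i => by simp [v, Lh _ NN_deg, Lν _ NN_deg, aN, βN],
    ?_, ?_, ?_⟩⟩
  · intro S hS hsp j hj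
    obtain ⟨f, hf, h1, h2⟩ : ∃ f : ℝ[X], f.natDegree < m + 2 ∧ ev f j ≠ 0 ∧
        ∀ i ∈ S, i ≠ j → ev f i = 0 := by
      by_cases hn : none ∈ S
      · have c1 := card_eraseNone_of_mem hn
        have c2 := card_pos.2 ⟨_, hn⟩
        have hβ : β (ZZ (eraseNone S)) ≠ 0 := l2 _ (by
          by_contra hc
          push Not at hc
          exact hsp ⟨hn, fun k => mem_eraseNone.1 (hc k)⟩)
        rcases j with _ | j
        · refine ⟨ZZ (eraseNone S), by have := degZ (eraseNone S); omega, hβ, ?_⟩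
          rintro (_ | i) hi hne
          · exact absurd rfl hne
          · exact (aa_ZZ hm _ _).2 (mem_eraseNone.2 hi)
        · refine ⟨ZZ ((eraseNone S).erase j) - C (β (ZZ ((eraseNone S).erase j)) /
            β (ZZ (eraseNone S))) * ZZ (eraseNone S), ?_, ?_, ?_⟩
          · refine lt_of_le_of_lt (natDegree_sub_le _ _) (max_lt ?_ ?_)
            · have := degZ ((eraseNone S).erase j)
              have := card_erase_le (s := eraseNone S) (a := j)
              omega
            · have := degZ (eraseNone S)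
              have := natDegree_C_mul_le (β (ZZ ((eraseNone S).erase j)) /
                β (ZZ (eraseNone S))) (ZZ (eraseNone S))
              omega
          · rw [evd, evs]
            simp only [ev, Option.elim]
            rw [(aa_ZZ hm _ _).2 (mem_eraseNone.2 hj), mul_zero, sub_zero, Ne, aa_ZZ hm]
            simp
          · rintro (_ | i) hi hne
            · rw [evd, evs]; simp only [ev, Option.elim]; field_simp; ring
            · rw [evd, evs]
              simp only [ev, Option.elim]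
              rw [(aa_ZZ hm _ _).2 (mem_eraseNone.2 hi), (aa_ZZ hm _ _).2
                (mem_erase.2 ⟨by simpa using hne, mem_eraseNone.2 hi⟩)]
              simp
      · rcases j with _ | j
        · exact absurd hj hn
        refine ⟨ZZ ((eraseNone S).erase j), ?_, ?_, ?_⟩
        · have := degZ ((eraseNone S).erase j)
          have := card_erase_of_mem (mem_eraseNone.2 hj)
          have := card_eraseNone_le S
          omega
        · simp only [ev, Option.elim]
          rw [Ne, aa_ZZ hm]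
          simp
        · rintro (_ | i) hi hne
          · exact absurd hi hn
          · exact (aa_ZZ hm _ _).2 (mem_erase.2 ⟨by simpa using hne, mem_eraseNone.2 hi⟩)
    have hd : (C (ev f j)⁻¹ * f).natDegree < m + 2 := (natDegree_C_mul_le _ _).trans_lt hf
    refine ⟨_, -β (C (ev f j)⁻¹ * f), (Fv _ hd none).trans (by simp [ev]), fun i hi => ?_⟩
    rw [Fv _ hd, evs]
    split_ifs with h
    · rw [h, inv_mul_cancel₀ h1]
    · rw [h2 i hi h, mul_zero]
  · intro i
    set s := tau m n (Sum.inr i) with hs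
    have s0 : 0 < s := tau_pos i
    let f : ℝ[X] := (∑ k : Fin m, C (1 / (s + k) ^ 2) * (C (2 * s + k) - X)) * PP m
    have hf : f.natDegree < m + 2 := by
      refine lt_of_le_of_lt natDegree_mul_le ?_
      have h1 : (∑ k : Fin m, C (1 / (s + k) ^ 2) * (C (2 * s + k) - X)).natDegree ≤ 1 :=
        natDegree_sum_le_of_forall_le _ _ fun k _ => by compute_degree
      have h2 : (PP m).natDegree ≤ m := (deg_prod _ _).trans (by simp)
      omega
    have a0 : ∀ k, aa m n f (Sum.inl k) = 0 := fun k => by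
      have : (PP m).eval (tau m n (Sum.inl k)) = 0 := by
        simp only [PP, eval_prod]
        exact prod_eq_zero (mem_univ k) (by simp [tau])
      simp [aa, f, this]
    have a1 : ∀ j, LL (m + 2) f (v (some (Sum.inr j))) =
        (∑ k : Fin m, (2 * s + k - tau m n (Sum.inr j)) / (s + k) ^ 2) /
          ∑ k : Fin m, 1 / (tau m n (Sum.inr j) + k) := fun j => by
      have := PP_pos (m := m) _ (tau_pos (m := m) j)
      simp only [v, Option.elim, Sum.elim_inr, map_sub, Lh f hf, Lν f hf, β, a0, mul_zero,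
        sum_const_zero, sub_zero]
      rw [aa, NN_pos _ (tau_pos j)]
      simp only [f, eval_mul, eval_finsetSum, eval_C, eval_sub, eval_X]
      rw [mul_comm, mul_div_mul_left _ _ this.ne']
      congr 1
      exact sum_congr rfl fun k _ => by ring
    refine ⟨LL (m + 2) f, fun k => by simp [v, Lh f hf, a0], ?_, fun j hj => ?_⟩
    · rw [a1, ← hs, div_eq_one_iff_eq (phi_pos hm _ s0).ne']
      refine sum_congr rfl fun k _ => ?_
      have : s + k ≠ 0 := by positivity
      field_simp; ring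
    · set t := tau m n (Sum.inr j) with ht
      have t0 : 0 < t := tau_pos j
      have hts : t - s ≠ 0 := fun h => hj (by simpa using tau_inj (sub_eq_zero.1 h))
      have h2 : t < 2 * s := by
        have : (j : ℝ) < n := by exact_mod_cast j.2
        have : (0 : ℝ) ≤ i := by positivity
        simp only [ht, hs, tau, Sum.elim_inr]; linarith
      rw [a1, ← ht, abs_of_nonneg (div_nonneg (sum_nonneg fun k _ => by
        have : (0 : ℝ) ≤ k := by positivity
        exact div_nonneg (by linarith) (by positivity)) (phi_pos hm _ t0).le),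
        div_lt_one (phi_pos hm _ t0)]
      refine sum_lt_sum_of_nonempty ⟨⟨0, hm⟩, mem_univ _⟩ fun k _ => ?_
      rw [div_lt_div_iff₀ (by positivity) (by positivity)]
      have := pow_pos (abs_pos.2 hts) 2
      rw [sq_abs] at this
      nlinarith
  · intro u hu
    have h0 : u ν = 0 := by simpa [v] using hu none
    have h1 : ∀ j, u (hat j) = 0 := by
      rintro (k | i)
      · exact hu (some (Sum.inl k))
      · simpa [v, h0] using hu (some (Sum.inr i))
    let g : ℝ[X] := ∑ e : Fin (m + 2), C (u (Pi.single e 1)) * X ^ (e : ℕ)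
    have hg : g = 0 := by
      refine eq_zero_of_natDegree_lt_card_of_eval_eq_zero g (tau_inj (m := m) (n := n))
        (fun j => ?_) ?_
      · have := h1 j
        simp only [hat, map_smul, smul_eq_mul, mul_eq_zero, inv_eq_zero, NN_ne hm, false_or] at this
        rw [← this, LinearMap.pi_apply_eq_sum_univ]
        simp only [g, eval_finsetSum, eval_mul, eval_C, eval_pow, eval_X, smul_eq_mul]
        refine sum_congr rfl fun e _ => ?_
        rw [mul_comm]
        congr 2
        ext a; simp [Pi.single_apply, eq_comm]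
      · refine lt_of_le_of_lt (natDegree_sum_le_of_forall_le _ _ (n := m + 1) fun e _ =>
          (natDegree_C_mul_X_pow_le _ _).trans (by omega)) (by simp; omega)
    refine (Pi.basisFun ℝ (Fin (m + 2))).ext fun e => ?_
    have := congrArg (fun p => p.coeff e) hg
    simpa [g, finsetSum_coeff, coeff_C_mul_X_pow, Fin.val_inj] using this

end Pool.Agent.H.MP_23085c_co
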